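import Pool.Agent.helper15.XE.SpecS
import Pool.Agent.helper49.SK.CMW

/-! # xe:CMW (helper78): comparison of the window with wide windows -/

set_option autoImplicit false

namespace Pool.Agent.XE

open Finset ArithmeticFunction MeasureTheory
open Pool.Agent.EC (tri TL wt edg)
open Pool.Agent.CH (nit DPb Tset)
open Pool.Agent.SK (uu zN YN gj tr0 g0 CMW_sum CMW_wide)
open GD (ks)

private theorem CMW_layer_low (k₀ : ℕ) (hk : 0 < k₀) (t : ℝ) (ht : 0 ≤ t) :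
    (1 / (k₀ : ℝ)) * ∑ k ∈ range k₀, (if ((k : ℝ) + 1) / k₀ ≤ t then (1 : ℝ) else 0) ≤ t := by
  have hk' : (0 : ℝ) < k₀ := Nat.cast_pos.2 hk
  rw [← Finset.sum_filter, Finset.sum_const, nsmul_eq_mul, mul_one, one_div, inv_mul_eq_div,
    div_le_iff₀ hk']
  have h1 : (⌊t * k₀⌋₊ : ℝ) ≤ t * k₀ := Nat.floor_le (by positivity)
  have hsub : (range k₀).filter (fun k : ℕ => ((k : ℝ) + 1) / k₀ ≤ t) ⊆ range ⌊t * k₀⌋₊ := by
    intro k hk1
    have h2 := (Finset.mem_filter.1 hk1).2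
    rw [div_le_iff₀ hk'] at h2
    have h3 : k + 1 ≤ ⌊t * k₀⌋₊ := by
      apply Nat.le_floor
      push_cast
      exact h2
    exact Finset.mem_range.2 h3
  have h4 := Finset.card_le_card hsub
  rw [Finset.card_range] at h4
  refine le_trans ?_ h1
  exact_mod_cast h4

private theorem CMW_card (X k k₀ : ℕ) (v δ : ℝ) (hδ : 0 < δ) (hk : k < k₀) (hX : Real.exp (v + δ) ≤ X) :
    2 * ((1 - ((k : ℝ) + 1) / k₀) * δ) * Real.exp v - 1 ≤
      ∑ m ∈ Ioc 0 X, (if ((k : ℝ) + 1) / k₀ ≤ tr0 v δ (Real.log m) then (1 : ℝ) else 0) := by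
  classical
  have hk' : (0 : ℝ) < k₀ := Nat.cast_pos.2 (by omega)
  have hkk : ((k : ℝ) + 1) ≤ k₀ := by exact_mod_cast hk
  have hq1 : ((k : ℝ) + 1) / k₀ ≤ 1 := by rw [div_le_one hk']; exact hkk
  have hq0 : 0 ≤ ((k : ℝ) + 1) / k₀ := by positivity
  obtain ⟨s, hs⟩ : ∃ s : ℝ, s = (1 - ((k : ℝ) + 1) / k₀) * δ := ⟨_, rfl⟩
  have hs0 : 0 ≤ s := by rw [hs]; exact mul_nonneg (by linarith) hδ.le
  have hsδ : s ≤ δ := by
    rw [hs]
    calc (1 - ((k : ℝ) + 1) / k₀) * δ ≤ 1 * δ := mul_le_mul_of_nonneg_right (by linarith) hδ.le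
      _ = δ := one_mul _
  rw [← hs]
  have hsub : Ioc ⌊Real.exp (v - s)⌋₊ ⌊Real.exp (v + s)⌋₊ ⊆
      (Ioc 0 X).filter (fun m : ℕ => ((k : ℝ) + 1) / k₀ ≤ tr0 v δ (Real.log m)) := by
    intro m hm
    obtain ⟨hm1, hm2⟩ := Finset.mem_Ioc.1 hm
    have hm3 : Real.exp (v - s) < m := (Nat.floor_lt (Real.exp_pos _).le).1 hm1
    have hm4 : (m : ℝ) ≤ Real.exp (v + s) := (Nat.le_floor_iff (Real.exp_pos _).le).1 hm2
    have hm0 : (0 : ℝ) < m := lt_trans (Real.exp_pos _) hm3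
    refine Finset.mem_filter.2 ⟨Finset.mem_Ioc.2 ⟨by exact_mod_cast hm0, ?_⟩, ?_⟩
    · have h5 : (m : ℝ) ≤ X := by
        refine hm4.trans (le_trans ?_ hX)
        exact Real.exp_le_exp.2 (by linarith)
      exact_mod_cast h5
    · have h6 : v - s < Real.log m := (Real.lt_log_iff_exp_lt hm0).2 hm3
      have h7 : Real.log m ≤ v + s := (Real.log_le_iff_le_exp hm0).2 hm4
      have h8 : |Real.log m - v| ≤ s := abs_le.2 ⟨by linarith, by linarith⟩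
      unfold tr0
      refine le_max_of_le_right ?_
      have h9 : |Real.log m - v| / δ ≤ s / δ := div_le_div_of_nonneg_right h8 hδ.le
      have h10 : s / δ = 1 - ((k : ℝ) + 1) / k₀ := by
        rw [hs]; field_simp
      linarith
  have hcard := Finset.card_le_card hsub
  rw [← Finset.sum_filter, Finset.sum_const, nsmul_eq_mul, mul_one]
  have hcard' : ((Ioc ⌊Real.exp (v - s)⌋₊ ⌊Real.exp (v + s)⌋₊).card : ℝ) ≤
      (((Ioc 0 X).filter (fun m : ℕ => ((k : ℝ) + 1) / k₀ ≤ tr0 v δ (Real.log m))).card : ℝ) := by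
    exact_mod_cast hcard
  refine le_trans ?_ hcard'
  rw [Nat.card_Ioc]
  have hle : ⌊Real.exp (v - s)⌋₊ ≤ ⌊Real.exp (v + s)⌋₊ :=
    Nat.floor_le_floor (Real.exp_le_exp.2 (by linarith))
  rw [Nat.cast_sub hle]
  have h11 : Real.exp (v + s) - 1 < (⌊Real.exp (v + s)⌋₊ : ℝ) := Nat.sub_one_lt_floor _
  have h12 : (⌊Real.exp (v - s)⌋₊ : ℝ) ≤ Real.exp (v - s) := Nat.floor_le (Real.exp_pos _).le
  have h13 : Real.exp (v + s) - Real.exp (v - s) = 2 * Real.sinh s * Real.exp v := by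
    rw [Real.sinh_eq, Real.exp_add, sub_eq_add_neg v s, Real.exp_add]
    ring
  have h14 : s ≤ Real.sinh s := Real.self_le_sinh_iff.2 hs0
  have h15 : 2 * s * Real.exp v ≤ 2 * Real.sinh s * Real.exp v :=
    mul_le_mul_of_nonneg_right (by linarith) (Real.exp_pos v).le
  linarith

private theorem CMW_mass (X k₀ : ℕ) (v δ : ℝ) (hδ : 0 < δ) (hk : 0 < k₀) (hX : Real.exp (v + δ) ≤ X) :
    δ * Real.exp v * (1 - 1 / (k₀ : ℝ)) - 1 ≤ ∑ m ∈ Ioc 0 X, tr0 v δ (Real.log m) := by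
  have hk' : (0 : ℝ) < k₀ := Nat.cast_pos.2 hk
  have h1 : (1 / (k₀ : ℝ)) * ∑ k ∈ range k₀, ∑ m ∈ Ioc 0 X,
      (if ((k : ℝ) + 1) / k₀ ≤ tr0 v δ (Real.log m) then (1 : ℝ) else 0) ≤
      ∑ m ∈ Ioc 0 X, tr0 v δ (Real.log m) := by
    rw [Finset.sum_comm, Finset.mul_sum]
    refine Finset.sum_le_sum (fun m _ => ?_)
    exact CMW_layer_low k₀ hk _ (le_max_left _ _)
  refine le_trans ?_ h1
  have h2 : ∑ k ∈ range k₀, (2 * ((1 - ((k : ℝ) + 1) / k₀) * δ) * Real.exp v - 1) ≤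
      ∑ k ∈ range k₀, ∑ m ∈ Ioc 0 X,
      (if ((k : ℝ) + 1) / k₀ ≤ tr0 v δ (Real.log m) then (1 : ℝ) else 0) :=
    Finset.sum_le_sum (fun k hkk => CMW_card X k k₀ v δ hδ (Finset.mem_range.1 hkk) hX)
  refine le_trans (le_of_eq ?_) (mul_le_mul_of_nonneg_left h2 (by positivity : (0 : ℝ) ≤ 1 / (k₀ : ℝ)))
  have h3 := CMW_sum k₀ hk
  have h4 : ∑ k ∈ range k₀, (2 * ((1 - ((k : ℝ) + 1) / k₀) * δ) * Real.exp v - 1) =
      2 * δ * Real.exp v * (∑ k ∈ range k₀, (1 - (k : ℝ) / k₀)) - (2 * δ * Real.exp v) - k₀ := by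
    rw [Finset.sum_sub_distrib, Finset.mul_sum]
    have h5 : ∑ k ∈ range k₀, (2 * ((1 - ((k : ℝ) + 1) / k₀) * δ) * Real.exp v) =
        ∑ k ∈ range k₀, (2 * δ * Real.exp v * (1 - (k : ℝ) / k₀)) - ∑ _k ∈ range k₀, 2 * δ * Real.exp v / k₀ := by
      rw [← Finset.sum_sub_distrib]
      refine Finset.sum_congr rfl (fun k _ => ?_)
      field_simp
      ring
    rw [h5]
    simp only [Finset.sum_const, Finset.card_range, nsmul_eq_mul, mul_one]
    field_simp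
  rw [h4]
  have h6 : (1 / (k₀ : ℝ)) * (2 * δ * Real.exp v * (∑ k ∈ range k₀, (1 - (k : ℝ) / k₀)) - (2 * δ * Real.exp v) - k₀) =
      2 * δ * Real.exp v * ((1 / (k₀ : ℝ)) * ∑ k ∈ range k₀, (1 - (k : ℝ) / k₀)) - 2 * δ * Real.exp v * (1 / k₀) -
        (1 / (k₀ : ℝ)) * k₀ := by ring
  rw [h6, h3, one_div_mul_cancel hk'.ne']
  ring

private theorem CMW_Xv (N : ℕ) (hN : 3 ≤ N) (v : ℝ) (hv : InB N v) : Real.exp v / N - 2 ≤ Xv N v := by
  have hNr : (3 : ℝ) ≤ N := by exact_mod_cast hN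
  have hN0 : (0 : ℝ) < N := by linarith
  have h1N : 1 / (N : ℝ) ≤ 1 / 3 := one_div_le_one_div_of_le (by norm_num) hNr
  have hX : Real.exp (v + 1 / (N : ℝ)) ≤ ((64 * N ^ 3 : ℕ) : ℝ) := by
    have h1 : v + 1 / (N : ℝ) ≤ Real.log ((N : ℝ) ^ 3) + 2 := by
      have : Real.log ((N : ℝ) ^ 3) = 3 * Real.log N := by rw [Real.log_pow]; norm_num
      rw [this]
      linarith [hv.2]
    have h2 : Real.exp (v + 1 / (N : ℝ)) ≤ Real.exp (Real.log ((N : ℝ) ^ 3) + 2) := Real.exp_le_exp.2 h1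
    rw [Real.exp_add (Real.log ((N : ℝ) ^ 3)) 2, Real.exp_log (by positivity)] at h2
    have h3 : Real.exp 2 ≤ 64 := by
      have h4 : Real.exp 2 = Real.exp 1 * Real.exp 1 := by rw [← Real.exp_add]; norm_num
      have h5 : Real.exp 1 ≤ 3 := by
        have := Real.exp_one_lt_d9
        linarith
      have h6 : 0 ≤ Real.exp 1 := (Real.exp_pos _).le
      rw [h4]
      nlinarith
    push_cast
    have h7 : (0 : ℝ) ≤ (N : ℝ) ^ 3 := by positivity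
    nlinarith
  obtain ⟨k₀, hk₀⟩ := exists_nat_gt (Real.exp v / N)
  have hE0 : 0 < Real.exp v / N := div_pos (Real.exp_pos _) hN0
  have hk0 : (0 : ℝ) < k₀ := lt_trans hE0 hk₀
  have hk0' : 0 < k₀ := by exact_mod_cast hk0
  have h8 := CMW_mass (64 * N ^ 3) k₀ v (1 / (N : ℝ)) (by positivity) hk0' hX
  have h9 : ∑ m ∈ Ioc (0 : ℕ) (64 * N ^ 3), tr0 v (1 / (N : ℝ)) (Real.log (m : ℝ)) = Xv N v := rfl
  rw [h9] at h8
  have h10 : 1 / (N : ℝ) * Real.exp v * (1 - 1 / (k₀ : ℝ)) = Real.exp v / N - Real.exp v / N / k₀ := by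
    field_simp
  rw [h10] at h8
  have h11 : Real.exp v / N / k₀ ≤ 1 := by
    rw [div_le_one hk0]; exact hk₀.le
  linarith

theorem CMW (h1 : SPT_stmt) (h2 : WVB_stmt) (h3 : Pool.Agent.SK.TRB_stmt) (h4 : TLB_stmt) : CMW_stmt := by
  intro r a b hA D hD hW κ hκ
  obtain ⟨B₀, hB₀⟩ := h1 r a b (Or.inr hA) 1 0
  obtain ⟨B, hBdef⟩ : ∃ B : ℕ, B = max B₀ 1 := ⟨_, rfl⟩
  have hB1 : 1 ≤ B := by rw [hBdef]; exact le_max_right _ _
  obtain ⟨N₁, hN₁⟩ := hB₀ B (by rw [hBdef]; exact le_max_left _ _)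
  obtain ⟨N₃, hN₃⟩ := hW (B + 1)
  -- the number of layers
  obtain ⟨k₀, hk₀⟩ := exists_nat_gt (8 * D / κ)
  have hk₀pos : 0 < k₀ := by
    have : (0 : ℝ) < k₀ := lt_of_le_of_lt (by positivity) hk₀
    exact_mod_cast this
  have hk' : (0 : ℝ) < k₀ := Nat.cast_pos.2 hk₀pos
  have hDk : D / k₀ ≤ κ / 8 := by
    rw [div_le_iff₀ hk']
    have := (div_lt_iff₀ hκ).1 hk₀
    linarith
  -- the logarithm is large
  obtain ⟨M, hM⟩ : ∃ M : ℝ, M = 4 + k₀ + 16 * D / κ + 8 / κ + 80 * (D + κ) / κ := ⟨_, rfl⟩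
  obtain ⟨N₄, hN₄⟩ := Filter.eventually_atTop.1
    ((Real.tendsto_log_atTop.comp tendsto_natCast_atTop_atTop).eventually_ge_atTop M)
  refine ⟨max N₁ (max N₃ (max N₄ 3)), ?_⟩
  intro N hN v hv
  have hNN₁ : N₁ ≤ N := le_trans (le_max_left _ _) hN
  have hNN₃ : N₃ ≤ N := le_trans (le_trans (le_max_left _ _) (le_max_right _ _)) hN
  have hNN₄ : N₄ ≤ N := le_trans (le_trans (le_max_left _ _) (le_trans (le_max_right _ _)
    (le_max_right _ _))) hN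
  have hN3 : 3 ≤ N := le_trans (le_trans (le_max_right _ _) (le_trans (le_max_right _ _)
    (le_max_right _ _))) hN
  have hNr : (3 : ℝ) ≤ N := by exact_mod_cast hN3
  have hN0 : (0 : ℝ) < N := by linarith
  have hX := CMW_Xv N hN3 v hv
  obtain ⟨hv1', hv2'⟩ := hv
  set L : ℝ := Real.log N with hLdef
  have hLM : M ≤ L := hN₄ N hNN₄
  have p1 : 0 ≤ 16 * D / κ := by positivity
  have p2 : 0 ≤ 8 / κ := by positivity
  have p3 : 0 ≤ 80 * (D + κ) / κ := by positivity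
  have hL4 : 4 ≤ L := by rw [hM] at hLM; linarith [hk'.le]
  have hLk : (k₀ : ℝ) ≤ L := by rw [hM] at hLM; linarith
  have hL16 : 16 * D / κ ≤ L := by rw [hM] at hLM; linarith [hk'.le]
  have hL8 : 8 / κ ≤ L := by rw [hM] at hLM; linarith [hk'.le]
  have hL80 : 80 * (D + κ) / κ ≤ L := by rw [hM] at hLM; linarith [hk'.le]
  have hL0 : 0 < L := by linarith
  have hLN : L ≤ N := by
    have := Real.log_le_sub_one_of_pos hN0
    linarith
  have h1N0 : 0 ≤ 1 / (N : ℝ) := by positivity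
  have hv : |v - 3 * L| ≤ 1 := abs_le.2 ⟨by linarith, by linarith⟩
  set X : ℕ := 64 * N ^ 3 with hXdef
  -- the weighted sum
  have hS : ∑ m ∈ Z3 N, TL N a b m * wv N v m =
      ∑ m ∈ Ioc 0 X, TL N a b m * tr0 v (1 / (N : ℝ)) (Real.log m) := rfl
  -- the part with g0
  have hG : |∑ m ∈ Ioc 0 X, TL N a b m * g0 B N v (Real.log m)| ≤ (N : ℝ) ^ 2 / L := by
    have h := hN₁ N hNN₁ v hv 1 (le_refl 1) (by simp) (1 : DirichletCharacter ℂ 1)
    have h' : ∑ m ∈ Ioc 0 (64 * N ^ 3), ((TL N a b m : ℝ) : ℂ) * (1 : DirichletCharacter ℂ 1) m *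
        gj B N v m = ((∑ m ∈ Ioc 0 X, TL N a b m * g0 B N v (Real.log m) : ℝ) : ℂ) := by
      rw [Complex.ofReal_sum]
      refine Finset.sum_congr rfl (fun m _ => ?_)
      have h5 : (1 : DirichletCharacter ℂ 1) (m : ZMod 1) = 1 :=
        MulChar.one_apply (isUnit_of_subsingleton _)
      rw [h5, mul_one, Complex.ofReal_mul]
      rfl
    rw [h', Complex.norm_real, Real.norm_eq_abs, pow_one] at h
    exact h
  have hsplit : ∑ m ∈ Ioc 0 X, TL N a b m * tr0 v (1 / (N : ℝ)) (Real.log m) =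
      ∑ m ∈ Ioc 0 X, TL N a b m * g0 B N v (Real.log m) +
        L ^ B / N * ∑ m ∈ Ioc 0 X, TL N a b m * tr0 v (1 / L ^ B) (Real.log m) := by
    rw [Finset.mul_sum, ← Finset.sum_add_distrib]
    refine Finset.sum_congr rfl (fun m _ => ?_)
    unfold g0
    ring
  -- size of exp v
  have hlog3 : (3 : ℝ) * Real.log N = Real.log ((N : ℝ) ^ 3) := by
    rw [Real.log_pow]; norm_num
  have hv1 : (N : ℝ) ^ 3 ≤ Real.exp v := by
    rw [← Real.exp_log (show (0 : ℝ) < (N : ℝ) ^ 3 by positivity), ← hlog3]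
    exact Real.exp_le_exp.2 (by linarith)
  have hv2 : Real.exp v ≤ 4 * (N : ℝ) ^ 3 := by
    have h5 : Real.exp v ≤ Real.exp (Real.log ((N : ℝ) ^ 3) + 1) := by
      rw [← hlog3]
      exact Real.exp_le_exp.2 (by linarith)
    rw [Real.exp_add, Real.exp_log (by positivity)] at h5
    have h6 : Real.exp 1 ≤ 4 := by
      have := Real.exp_one_lt_d9
      linarith
    have h11 : (0 : ℝ) ≤ (N : ℝ) ^ 3 := by positivity
    nlinarith
  have hwide := CMW_wide N a b X B k₀ D v L hk₀pos hD hL4 hB1 hLk hv1 hv2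
    (fun u h q1 q2 q3 q4 => hN₃ N hNN₃ u h q1 q2 q3 q4)
  -- collect
  rw [hS, hsplit]
  have hLB : 0 < L ^ B := by positivity
  have hδL : 1 / L ^ B ≤ 1 / L := by
    refine one_div_le_one_div_of_le hL0 ?_
    calc L = L ^ 1 := (pow_one L).symm
      _ ≤ L ^ B := pow_le_pow_right₀ (by linarith) hB1
  obtain ⟨E, hE⟩ : ∃ E : ℝ, E = Real.exp v / N := ⟨_, rfl⟩
  have hE1 : (N : ℝ) ^ 2 ≤ E := by
    rw [hE, le_div_iff₀ hN0]
    calc (N : ℝ) ^ 2 * N = (N : ℝ) ^ 3 := by ring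
      _ ≤ _ := hv1
  have hE0 : 0 < E := lt_of_lt_of_le (by positivity) hE1
  have hNE : (N : ℝ) ≤ E := by
    refine le_trans ?_ hE1
    nlinarith
  have hmain : L ^ B / N * ∑ m ∈ Ioc 0 X, TL N a b m * tr0 v (1 / L ^ B) (Real.log m) ≤
      D * (E * (1 + 1 / (k₀ : ℝ) + 1 / L)) := by
    have h13 : L ^ B / N * ∑ m ∈ Ioc 0 X, TL N a b m * tr0 v (1 / L ^ B) (Real.log m) ≤
        L ^ B / N * (D * (Real.exp v * ((1 / L ^ B) * (1 + 1 / (k₀ : ℝ) + 1 / L ^ B)))) :=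
      mul_le_mul_of_nonneg_left hwide (by positivity)
    refine le_trans h13 ?_
    have h14 : L ^ B / N * (D * (Real.exp v * ((1 / L ^ B) * (1 + 1 / (k₀ : ℝ) + 1 / L ^ B)))) =
        D * (E * (1 + 1 / (k₀ : ℝ) + 1 / L ^ B)) := by
      rw [hE]
      field_simp
    rw [h14]
    refine mul_le_mul_of_nonneg_left ?_ hD
    exact mul_le_mul_of_nonneg_left (by linarith) hE0.le
  rw [← hE] at hX
  have hfin : (N : ℝ) ^ 2 / L + D * (E * (1 + 1 / (k₀ : ℝ) + 1 / L)) ≤ (D + κ) * (E - 2) := by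
    have q1 : 1 / L ≤ κ / 8 := by
      rw [div_le_iff₀ hL0]
      have := (div_le_iff₀ hκ).1 hL8
      linarith
    have q2 : D / L ≤ κ / 16 := by
      rw [div_le_iff₀ hL0]
      have := (div_le_iff₀ hκ).1 hL16
      linarith
    have q3 : 80 * (D + κ) ≤ κ * E := by
      have := (div_le_iff₀ hκ).1 (le_trans hL80 (le_trans hLN hNE))
      linarith
    have q4 : (N : ℝ) ^ 2 / L ≤ E * (κ / 8) := by
      calc (N : ℝ) ^ 2 / L ≤ E / L := div_le_div_of_nonneg_right hE1 hL0.le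
        _ = E * (1 / L) := by ring
        _ ≤ E * (κ / 8) := mul_le_mul_of_nonneg_left q1 hE0.le
    have q5 : D * (E * (1 + 1 / (k₀ : ℝ) + 1 / L)) ≤ E * (D + κ / 8 + κ / 16) := by
      have h19 : D * (E * (1 + 1 / (k₀ : ℝ) + 1 / L)) = E * (D + D / k₀ + D / L) := by ring
      rw [h19]
      exact mul_le_mul_of_nonneg_left (by linarith) hE0.le
    have q6 : 0 ≤ E * κ := by positivity
    nlinarith
  have hG' := (abs_le.1 hG).2
  calc ∑ m ∈ Ioc 0 X, TL N a b m * g0 B N v (Real.log m) +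
        L ^ B / N * ∑ m ∈ Ioc 0 X, TL N a b m * tr0 v (1 / L ^ B) (Real.log m)
      ≤ (N : ℝ) ^ 2 / L + D * (E * (1 + 1 / (k₀ : ℝ) + 1 / L)) :=
        add_le_add hG' hmain
    _ ≤ (D + κ) * (E - 2) := hfin
    _ ≤ (D + κ) * Xv N v := mul_le_mul_of_nonneg_left hX (by positivity)

end Pool.Agent.XE
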